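import Pool.Agent.Helper27.HZ.Stm
import Pool.Agent.Helper95.HY.Sign

/-!
# H7: positivity for a fixed skew matrix (piece of helper27's project on MP_9d0d86_gt)
-/

set_option autoImplicit false
set_option linter.unusedSectionVars false

open scoped BigOperators
open MvPolynomial

namespace Pool.Agent.Helper64.HZ

open Pool.Agent.Helper27.HZ
open Pool.Agent.Helper27.HY (mom)
open Pool.Agent.Helper95.HY (mom_conj mom_odd pos_of_ne)

/-! ### symmetries of the expectation -/

section
variable {ι : Type} [Fintype ι] [DecidableEq ι]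

theorem E_conj (q : S ι) :
    E (MvPolynomial.map (starRingEnd ℂ) q) = (starRingEnd ℂ) (E q) := by
  induction q using MvPolynomial.induction_on' with
  | monomial d c =>
    rw [map_monomial, E_monomial, E_monomial, map_mul, map_prod]
    simp only [mom_conj]
  | add p q hp hq => rw [map_add, map_add, map_add, map_add, hp, hq]

theorem sgn_mom (s : ι → ℂ) (hs : ∀ a, s a = 1 ∨ s a = -1) (a : ι) (k : ℕ) :
    s a ^ k * mom k = mom k := by
  rcases hs a with h | h
  · simp [h]
  · rcases Nat.even_or_odd k with h' | h'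
    · simp [h, h'.neg_one_pow]
    · simp [mom_odd k h']

/-- the change of signs of the variables -/
noncomputable def sg (s : ι → ℂ) : S ι →ₐ[ℂ] S ι := aeval fun a => C (s a) * X a

theorem E_sg (s : ι → ℂ) (hs : ∀ a, s a = 1 ∨ s a = -1) (p : S ι) : E (sg s p) = E p := by
  induction p using MvPolynomial.induction_on' with
  | monomial d c =>
    have h1 : sg s (monomial d c : S ι) = monomial d (c * ∏ a, s a ^ d a) := by
      rw [sg, aeval_monomial, Finsupp.prod_fintype _ _ (fun a => pow_zero _)]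
      simp only [mul_pow]
      rw [Finset.prod_mul_distrib, MvPolynomial.algebraMap_eq, ← mul_assoc]
      have h2 : ∏ a : ι, (X a : S ι) ^ d a = monomial d 1 := by
        rw [monomial_eq, Finsupp.prod_fintype _ _ (fun a => pow_zero _)]
        simp
      have h3 : ∏ a : ι, (C (s a) : S ι) ^ d a = C (∏ a, s a ^ d a) := by
        rw [map_prod]
        simp only [map_pow]
      rw [h2, h3, ← C_mul, C_mul_monomial, mul_one]
    rw [h1, E_monomial, E_monomial, mul_assoc, ← Finset.prod_mul_distrib]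
    simp only [sgn_mom s hs]
  | add p q hp hq => rw [map_add, map_add, map_add, hp, hq]

variable {J : Type} [Fintype J] [DecidableEq J]

/-- the expectation of the determinant along a line -/
theorem E_det_line (N0 N1 : Matrix J J (S ι)) :
    ∃ a : ℕ → ℂ, a (Fintype.card J) = E N1.det ∧ ∀ t : ℂ,
      E (N0 + (C t : S ι) • N1).det = ∑ k ∈ Finset.range (Fintype.card J + 1), a k * t ^ k := by
  set Q : Polynomial (S ι) :=
    ((Polynomial.X : Polynomial (S ι)) • N1.map Polynomial.C + N0.map Polynomial.C).det with hQ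
  refine ⟨fun k => E (Q.coeff k), ?_, fun t => ?_⟩
  · simp only [hQ]
    rw [Polynomial.coeff_det_X_add_C_card]
  · have h1 : Q.eval (C t) = (N0 + (C t : S ι) • N1).det := by
      have h := RingHom.map_det (Polynomial.evalRingHom (C t : S ι))
        ((Polynomial.X : Polynomial (S ι)) • N1.map Polynomial.C + N0.map Polynomial.C)
      have h' : (Polynomial.evalRingHom (C t : S ι)).mapMatrix
          ((Polynomial.X : Polynomial (S ι)) • N1.map Polynomial.C + N0.map Polynomial.C) =
          N0 + (C t : S ι) • N1 := by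
        ext1 i j
        simp
        ring
      rw [h'] at h
      exact h
    have h2 : Q.natDegree < Fintype.card J + 1 :=
      Nat.lt_succ_of_le (Polynomial.natDegree_det_X_add_C_le _ _)
    rw [← h1, Polynomial.eval_eq_sum_range' h2, map_sum]
    refine Finset.sum_congr rfl fun k _ => ?_
    rw [← C_pow, mul_comm, E_C_mul, mul_comm]

end

section
variable {J : Type} [Fintype J] [DecidableEq J] {p r : ℕ}

/-- complexification -/
abbrev cx (B : Matrix J J ℝ) : Matrix J J ℂ := B.map ((↑) : ℝ → ℂ)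

/-- the signs -/
def sgn : Fin p × Option (Fin r) → ℂ
  | (_, none) => 1
  | (_, some _) => -1

theorem sgn_cases (a : Fin p × Option (Fin r)) : sgn a = 1 ∨ sgn a = -1 := by
  rcases a with ⟨s, _ | k⟩
  · exact Or.inl rfl
  · exact Or.inr rfl

theorem Mk_conj (A0 : Fin p → Matrix J J ℝ) (A : Fin p → Fin r → Matrix J J ℝ)
    (a : Fin p × Option (Fin r)) (i j : J) :
    (starRingEnd ℂ) (Mk (fun s => cx (A0 s)) (fun s k => cx (A s k)) a i j) =
      - (Mk (fun s => cx (A0 s)) (fun s k => cx (A s k)) a i j * sgn a) := by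
  rcases a with ⟨s, _ | k⟩
  · simp [Mk, sgn]
  · simp [Mk, sgn]

theorem f_real (A0 : Fin p → Matrix J J ℝ) (A : Fin p → Fin r → Matrix J J ℝ)
    (hJ : Even (Fintype.card J)) (Ω : Matrix J J ℝ) (v : ℝ) :
    (starRingEnd ℂ) (f (Mk (fun s => cx (A0 s)) fun s k => cx (A s k))
      (Complex.I • cx Ω + (Complex.I * (v : ℂ)) • (1 : Matrix J J ℂ)))
      = f (Mk (fun s => cx (A0 s)) fun s k => cx (A s k))
        (Complex.I • cx Ω + (Complex.I * (v : ℂ)) • (1 : Matrix J J ℂ)) := by
  unfold f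
  set N : Matrix J J (S (Fin p × Option (Fin r))) :=
    MM (Mk (fun s => cx (A0 s)) fun s k => cx (A s k))
      (Complex.I • cx Ω + (Complex.I * (v : ℂ)) • (1 : Matrix J J ℂ)) with hN
  rw [← E_conj]
  have h1 : MvPolynomial.map (starRingEnd ℂ) N.det
      = (N.map (MvPolynomial.map (starRingEnd ℂ) :
          S (Fin p × Option (Fin r)) → S (Fin p × Option (Fin r)))).det := by
    exact RingHom.map_det (MvPolynomial.map (starRingEnd ℂ)) N
  have h2 : sg sgn N.det = (N.map (sg sgn :
      S (Fin p × Option (Fin r)) → S (Fin p × Option (Fin r)))).det := by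
    exact AlgHom.map_det (sg sgn) N
  have h3 : N.map (MvPolynomial.map (starRingEnd ℂ) :
      S (Fin p × Option (Fin r)) → S (Fin p × Option (Fin r))) = - N.map (sg sgn :
      S (Fin p × Option (Fin r)) → S (Fin p × Option (Fin r))) := by
    ext1 i j
    simp only [Matrix.map_apply, Matrix.neg_apply, hN, MM, Matrix.add_apply, GG, map_add, map_mul,
      map_sum, sg, MvPolynomial.map_C, MvPolynomial.map_X, aeval_X, MvPolynomial.algHom_C,
      MvPolynomial.algebraMap_eq, Mk_conj]
    rw [neg_add]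
    congr 1
    · have e1 : (starRingEnd ℂ) ((Complex.I • cx Ω) i j) = - (Complex.I • cx Ω) i j := by
        simp [cx]
      have e2 : (starRingEnd ℂ) (((Complex.I * (v : ℂ)) • (1 : Matrix J J ℂ)) i j) =
          - ((Complex.I * (v : ℂ)) • (1 : Matrix J J ℂ)) i j := by
        by_cases hij : i = j
        · simp [hij]
        · simp [hij]
      rw [e1, e2, map_neg, map_neg, neg_add]
    · rw [← Finset.sum_neg_distrib]
      refine Finset.sum_congr rfl fun a _ => ?_
      rw [map_neg, map_mul]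
      ring
  rw [h1, h3, Matrix.det_neg, hJ.neg_one_pow, one_mul, ← h2, E_sg sgn sgn_cases]

theorem f_poly {ι : Type} [Fintype ι] [DecidableEq ι] (M : ι → Matrix J J ℂ) (Y : Matrix J J ℂ) :
    ∃ a : ℕ → ℂ, a (Fintype.card J) = 1 ∧ ∀ t : ℂ,
      f M (Y + t • (1 : Matrix J J ℂ)) = ∑ j ∈ Finset.range (Fintype.card J + 1), a j * t ^ j := by
  obtain ⟨a, ha, h⟩ := E_det_line (MM M Y) (1 : Matrix J J (S ι))
  refine ⟨a, ?_, fun t => ?_⟩
  · rw [ha, Matrix.det_one, E_one]
  · rw [← h t, f_eq]
    congr 2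
    ext1 i j
    by_cases hij : i = j
    · subst hij
      simp [MM]
      ring
    · simp [MM, hij]

/-- the sign of the value at zero -/
theorem sign_zero (m : ℕ) (hJ : Fintype.card J = 2 * m) (A0 : Fin p → Matrix J J ℝ)
    (A : Fin p → Fin r → Matrix J J ℝ) (Ω : Matrix J J ℝ)
    (hne : ∀ v : ℝ, 0 < v → f (Mk (fun s => cx (A0 s)) fun s k => cx (A s k))
      (Complex.I • cx Ω + (Complex.I * (v : ℂ)) • (1 : Matrix J J ℂ)) ≠ 0) :
    0 ≤ (-1) ^ m * (f (Mk (fun s => cx (A0 s)) fun s k => cx (A s k)) (Complex.I • cx Ω)).re := by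
  obtain ⟨a, ha1, ha⟩ := f_poly (Mk (fun s => cx (A0 s)) fun s k => cx (A s k)) (Complex.I • cx Ω)
  have hev : Even (Fintype.card J) := ⟨m, by omega⟩
  set b : ℕ → ℝ := fun j => (-1) ^ m * (a j * Complex.I ^ j).re with hb
  have hre : ∀ v : ℝ, (-1) ^ m * (f (Mk (fun s => cx (A0 s)) fun s k => cx (A s k))
      (Complex.I • cx Ω + (Complex.I * (v : ℂ)) • (1 : Matrix J J ℂ))).re
      = ∑ j ∈ Finset.range (2 * m + 1), b j * v ^ j := by
    intro v
    rw [ha, Complex.re_sum, Finset.mul_sum, hJ]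
    refine Finset.sum_congr rfl fun j _ => ?_
    rw [hb]
    simp only
    have : a j * (Complex.I * (v : ℂ)) ^ j = ((v ^ j : ℝ) : ℂ) * (a j * Complex.I ^ j) := by
      push_cast
      ring
    rw [this, Complex.re_ofReal_mul]
    ring
  have hb1 : b (2 * m) = 1 := by
    rw [hb]
    simp only
    rw [← hJ, ha1, hJ, one_mul, pow_mul, Complex.I_sq]
    have h1 : ((-1 : ℂ) ^ m) = (((-1 : ℝ) ^ m : ℝ) : ℂ) := by push_cast; ring
    rw [h1, Complex.ofReal_re, ← mul_pow]
    simp
  have h0 := pos_of_ne (2 * m) b hb1 (by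
    intro v hv h
    rw [← hre v] at h
    have h2 := f_real A0 A hev Ω v
    rw [Complex.conj_eq_iff_re] at h2
    have h3 : (f (Mk (fun s => cx (A0 s)) fun s k => cx (A s k))
        (Complex.I • cx Ω + (Complex.I * (v : ℂ)) • (1 : Matrix J J ℂ))).re = 0 := by
      rcases mul_eq_zero.1 h with h4 | h4
      · exact absurd h4 (pow_ne_zero _ (by norm_num))
      · exact h4
    rw [h3] at h2
    exact hne v hv (by rw [← h2]; simp))
  have h1 := hre 0
  have h2 : Complex.I • cx Ω + (Complex.I * ((0 : ℝ) : ℂ)) • (1 : Matrix J J ℂ)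
      = Complex.I • cx Ω := by
    simp
  rw [h2] at h1
  rw [h1, Finset.sum_eq_single 0]
  · simpa using h0
  · intro j _ hj
    simp [hj]
  · intro h
    simp at h

/-! ### transport of the nonvanishing theorem -/

theorem hf_submatrix {K : Type} [Fintype K] [DecidableEq K] (e : J ≃ K) (M : Matrix J J ℂ)
    (x : K → ℂ) : hf (M.submatrix e.symm e.symm) x = hf M (x ∘ e) := by
  unfold hf
  rw [← Equiv.sum_comp e]
  refine Finset.sum_congr rfl fun i _ => ?_
  rw [← Equiv.sum_comp e]
  refine Finset.sum_congr rfl fun j _ => ?_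
  simp

theorem nonvanishJ (hNV : NonvanishStm) (θ : ℝ) (hθ : 0 ≤ θ) (hθ1 : θ < 1)
    (A0 : Fin p → Matrix J J ℂ) (A : Fin p → Fin r → Matrix J J ℂ)
    (h : ∀ s, AdH θ (A0 s) (A s)) (Y : Matrix J J ℂ) (hY : ∀ x, x ≠ 0 → 0 < hi Y x) :
    f (Mk A0 A) Y ≠ 0 := by
  set e := Fintype.equivFin J with he
  have h1 := hNV (Fintype.card J) p r θ hθ hθ1 (fun s => (A0 s).submatrix e.symm e.symm)
    (fun s k => (A s k).submatrix e.symm e.symm) (fun s => ⟨fun i j => (h s).herm0 _ _,
      fun k i j => (h s).herm k _ _, fun x => by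
        unfold hq
        rw [hf_submatrix]
        exact (h s).nonneg _, fun x => by
        unfold hq
        simp only [hf_submatrix]
        exact (h s).bd _⟩) (Y.submatrix e.symm e.symm) (fun x hx => by
        unfold hi
        rw [hf_submatrix]
        refine hY _ fun h0 => hx ?_
        funext i
        have := congrFun h0 (e.symm i)
        simpa using this)
  have h2 : f (Mk (fun s => (A0 s).submatrix e.symm e.symm)
      (fun s k => (A s k).submatrix e.symm e.symm)) (Y.submatrix e.symm e.symm)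
      = f (Mk A0 A) Y := by
    unfold f
    rw [← Matrix.det_submatrix_equiv_self e.symm (MM (Mk A0 A) Y)]
    congr 2
    ext1 i j
    simp only [MM, GG, Matrix.add_apply, Matrix.map_apply, Matrix.submatrix_apply]
    congr 1
    refine Finset.sum_congr rfl fun a _ => ?_
    rcases a with ⟨s, _ | k⟩
    · simp [Mk]
    · simp [Mk]
  rwa [h2] at h1

/-! ### real matrices -/

/-- the quadratic form -/
def qf (B : Matrix J J ℝ) (x : J → ℝ) : ℝ := ∑ i, ∑ j, B i j * (x i * x j)

theorem hq_cx (B : Matrix J J ℝ) (x : J → ℂ) :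
    hq (cx B) x = qf B (fun i => (x i).re) + qf B (fun i => (x i).im) := by
  unfold hq hf qf
  rw [Complex.re_sum, ← Finset.sum_add_distrib]
  refine Finset.sum_congr rfl fun i _ => ?_
  rw [Complex.re_sum, ← Finset.sum_add_distrib]
  refine Finset.sum_congr rfl fun j _ => ?_
  simp [cx]
  ring

theorem mink (k : ℕ) (u w : Fin k → ℝ) (U W : ℝ) (hU : 0 ≤ U) (hW : 0 ≤ W)
    (hu : ∑ a, u a ^ 2 ≤ U ^ 2) (hw : ∑ a, w a ^ 2 ≤ W ^ 2) :
    ∑ a, (u a + w a) ^ 2 ≤ (U + W) ^ 2 := by
  have h1 := Finset.sum_mul_sq_le_sq_mul_sq Finset.univ u w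
  have h2 : (∑ a, u a * w a) ^ 2 ≤ (U * W) ^ 2 := by
    rw [mul_pow]
    exact h1.trans (mul_le_mul hu hw (Finset.sum_nonneg fun _ _ => sq_nonneg _) (sq_nonneg _))
  have h3 : ∑ a, u a * w a ≤ U * W := (le_abs_self _).trans (abs_le_of_sq_le_sq h2 (mul_nonneg hU hW))
  have h4 : ∑ a, (u a + w a) ^ 2 = ∑ a, u a ^ 2 + 2 * ∑ a, u a * w a + ∑ a, w a ^ 2 := by
    rw [Finset.mul_sum, ← Finset.sum_add_distrib, ← Finset.sum_add_distrib]
    exact Finset.sum_congr rfl fun _ _ => by ring
  rw [h4]
  nlinarith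

theorem qf_smul (c : ℝ) (B : Matrix J J ℝ) (x : J → ℝ) : qf (c • B) x = c * qf B x := by
  unfold qf
  rw [Finset.mul_sum]
  refine Finset.sum_congr rfl fun i _ => ?_
  rw [Finset.mul_sum]
  refine Finset.sum_congr rfl fun j _ => ?_
  rw [Matrix.smul_apply, smul_eq_mul]
  ring

theorem adH (A0 : Matrix J J ℝ) (A : Fin r → Matrix J J ℝ) (h0 : ∀ i j, A0 i j = A0 j i)
    (hA : ∀ k i j, A k i j = A k j i) (hpos : ∀ x : J → ℝ, 0 ≤ qf A0 x)
    (hle : ∀ x : J → ℝ, ∑ k, qf (A k) x ^ 2 ≤ qf A0 x ^ 2) (η : ℝ) (hη : 0 < η) :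
    AdH (1 / (1 + η)) (cx ((1 + η) • A0)) fun k => cx (A k) := by
  refine ⟨fun i j => ?_, fun k i j => ?_, fun x => ?_, fun x => ?_⟩
  · simp [cx, h0 i j]
  · simp [cx, hA k i j]
  · rw [hq_cx, qf_smul, qf_smul]
    have := hpos (fun i => (x i).re)
    have := hpos (fun i => (x i).im)
    positivity
  · simp only [hq_cx, qf_smul]
    have h1 := mink r (fun k => qf (A k) fun i => (x i).re) (fun k => qf (A k) fun i => (x i).im)
      (qf A0 fun i => (x i).re) (qf A0 fun i => (x i).im) (hpos _) (hpos _) (hle _) (hle _)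
    refine h1.trans (le_of_eq ?_)
    have : (1 + η) ≠ 0 := by positivity
    field_simp

theorem hi_skew (Ω : Matrix J J ℝ) (hΩ : ∀ i j, Ω j i = - Ω i j) (v : ℝ) (x : J → ℂ) :
    hi (Complex.I • cx Ω + (Complex.I * (v : ℂ)) • (1 : Matrix J J ℂ)) x = v * nn x := by
  have h1 : ∀ y : J → ℝ, qf Ω y = 0 := by
    intro y
    have h2 : qf Ω y = - qf Ω y := by
      unfold qf
      nth_rewrite 1 [Finset.sum_comm]
      rw [← Finset.sum_neg_distrib]
      refine Finset.sum_congr rfl fun i _ => ?_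
      rw [← Finset.sum_neg_distrib]
      refine Finset.sum_congr rfl fun j _ => ?_
      rw [hΩ i j]
      ring
    linarith
  have h3 : hf (Complex.I • cx Ω + (Complex.I * (v : ℂ)) • (1 : Matrix J J ℂ)) x
      = Complex.I * hf (cx Ω) x + Complex.I * (v : ℂ) * ∑ i, (starRingEnd ℂ) (x i) * x i := by
    unfold hf
    rw [Finset.mul_sum, Finset.mul_sum, ← Finset.sum_add_distrib]
    refine Finset.sum_congr rfl fun i _ => ?_
    have h4 : ∀ j, (Complex.I • cx Ω + (Complex.I * (v : ℂ)) • (1 : Matrix J J ℂ)) i j *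
        ((starRingEnd ℂ) (x i) * x j) = Complex.I * (cx Ω i j * ((starRingEnd ℂ) (x i) * x j)) +
        (if i = j then Complex.I * (v : ℂ) * ((starRingEnd ℂ) (x i) * x j) else 0) := by
      intro j
      rw [Matrix.add_apply, Matrix.smul_apply, Matrix.smul_apply, Matrix.one_apply]
      split_ifs with h5
      · simp only [smul_eq_mul]
        ring
      · simp only [smul_eq_mul]
        ring
    simp only [h4]
    rw [Finset.sum_add_distrib, Finset.sum_ite_eq, if_pos (Finset.mem_univ i), ← Finset.mul_sum]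
  have h5 : (hf (cx Ω) x).re = 0 := by
    have := hq_cx Ω x
    rw [h1, h1, add_zero] at this
    exact this
  have h6 : ∑ i, (starRingEnd ℂ) (x i) * x i = ((nn x : ℝ) : ℂ) := by
    unfold nn
    rw [Complex.ofReal_sum]
    refine Finset.sum_congr rfl fun i _ => ?_
    rw [Complex.normSq_eq_conj_mul_self]
  unfold hi
  rw [h3, h6]
  simp [h5]

theorem nn_pos (x : J → ℂ) (hx : x ≠ 0) : 0 < nn x := by
  obtain ⟨i, hi⟩ := Function.ne_iff.1 hx
  unfold nn
  exact Finset.sum_pos' (fun j _ => Complex.normSq_nonneg _)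
    ⟨i, Finset.mem_univ i, Complex.normSq_pos.2 hi⟩

/-- continuity in the parameter -/
theorem cont_eta (A0 : Fin p → Matrix J J ℝ) (A : Fin p → Fin r → Matrix J J ℝ)
    (Y : Matrix J J ℂ) : Continuous fun η : ℝ =>
      f (Mk (fun s => cx ((1 + η) • A0 s)) fun s k => cx (A s k)) Y := by
  obtain ⟨a, -, ha⟩ := E_det_line (MM (Mk (fun s => cx (A0 s)) fun s k => cx (A s k)) Y)
    (GG (Mk (fun s => cx (A0 s)) fun (_ : Fin p) (_ : Fin r) => (0 : Matrix J J ℂ)))
  have h1 : ∀ η : ℝ, f (Mk (fun s => cx ((1 + η) • A0 s)) fun s k => cx (A s k)) Y =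
      ∑ k ∈ Finset.range (Fintype.card J + 1), a k * (η : ℂ) ^ k := by
    intro η
    rw [← ha (η : ℂ), f_eq]
    congr 2
    ext1 i j
    simp only [MM, GG, Matrix.add_apply, Matrix.map_apply, Matrix.smul_apply, smul_eq_mul]
    rw [add_assoc, Finset.mul_sum, ← Finset.sum_add_distrib]
    congr 1
    refine Finset.sum_congr rfl fun b _ => ?_
    rcases b with ⟨s, _ | k⟩
    · simp only [Mk, Matrix.smul_apply, smul_eq_mul, Matrix.map_apply]
      push_cast
      simp only [map_mul, map_add, map_one]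
      ring
    · simp [Mk]
  simp only [h1]
  fun_prop

end

theorem skew : SkewStm := by
  intro hNV m p r A0 A h0 hA hpos hle Ω hΩ
  have hcard : Fintype.card (Fin m × Bool) = 2 * m := by
    simp [mul_comm]
  have key : ∀ η : ℝ, 0 < η → 0 ≤ (-1) ^ m * (f (Mk (fun s => cx ((1 + η) • A0 s))
      fun s k => cx (A s k)) (Complex.I • cx Ω)).re := by
    intro η hη
    refine sign_zero m hcard (fun s => (1 + η) • A0 s) A Ω fun v hv => ?_
    refine nonvanishJ hNV (1 / (1 + η)) (by positivity)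
      ((div_lt_one (by positivity)).2 (by linarith)) _ _
      (fun s => adH (A0 s) (A s) (h0 s) (hA s) (hpos s) (hle s) η hη) _ fun x hx => ?_
    rw [hi_skew Ω hΩ]
    exact mul_pos hv (nn_pos x hx)
  have hc : Continuous fun η : ℝ => (-1 : ℝ) ^ m * (f (Mk (fun s => cx ((1 + η) • A0 s))
      fun s k => cx (A s k)) (Complex.I • cx Ω)).re :=
    continuous_const.mul (Complex.continuous_re.comp (cont_eta A0 A (Complex.I • cx Ω)))
  have h3 := ge_of_tendsto ((hc.tendsto 0).mono_left nhdsWithin_le_nhds)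
    (eventually_nhdsWithin_of_forall (s := Set.Ioi (0 : ℝ)) fun η hη => key η hη)
  simpa using h3

end Pool.Agent.Helper64.HZ
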